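import Pool.Agent.H92.EQ.TK2

/-!
Block P of the board MP_75a732_an (near critical visits of the backward walk are rare).

Throughout `N = p + 1` and `σ : Form (Fin (p + 1)) p` is a smooth measure on projective space.
The backward walk `X_0, X_1, ...` starts at a point with law `σ`; `X_(i+1)` is a random preimage
of `X_i`; the law of `X_i` is `Sn F d i σ`, and `X_i = F^(k-i) (X_k)` for `i ≤ k`.
-/

namespace Pool.Agent.H83.EQP

open scoped BigOperators ComplexConjugate ContDiff ComplexOrder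
open MeasureTheory Pool.Agent.H92.EQ

noncomputable section

variable {N p : ℕ}

/-- `E φ(X_i)`. -/
def Ex (F : Fin N → MvPolynomial (Fin N) ℂ) (d i : ℕ) (φ : (Fin N → ℂ) → ℝ)
    (σ : Form (Fin N) p) : ℝ :=
  pair φ (Sn F d i σ) (fun _ : Fin 0 => ell)

/-- Multiplication of a form by a function. -/
def fm (g : (Fin N → ℂ) → ℝ) (σ : Form (Fin N) p) : Form (Fin N) p :=
  fun z I J => (g z : ℂ) * σ z I J

/-- Smooth weights with values in `[0,1]`. -/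
structure Wg (w : (Fin N → ℂ) → ℝ) : Prop where
  hom : Hom0 w
  meas : Measurable w
  nn : ∀ z, 0 ≤ w z
  le : ∀ z, w z ≤ 1

/-- Bounded measurable functions on projective space. -/
structure Tf (φ : (Fin N → ℂ) → ℝ) : Prop where
  meas : Measurable φ
  bd : ∃ B : ℝ, ∀ z, |φ z| ≤ B
  hom : ∀ (l : ℂ) (z : Fin N → ℂ), l ≠ 0 → z ≠ 0 → φ (l • z) = φ z

/-- Smooth probability measures. -/
structure Prob (σ : Form (Fin (p + 1)) p) : Prop where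
  pf : ProjForm σ
  ms : mass 0 σ = mass 0 (om (p + 1) p)

/-- `|h|²` on projective space. -/
def vv (h : MvPolynomial (Fin N) ℂ) (m : ℕ) (z : Fin N → ℂ) : ℝ :=
  ‖MvPolynomial.eval z h‖ ^ 2 / nsq z ^ m

/-- The weight: `1` if `|h| ≤ r`, `0` if `|h|² ≥ 2 r²`. -/
def Wt (h : MvPolynomial (Fin N) ℂ) (m : ℕ) (r : ℝ) (z : Fin N → ℂ) : ℝ :=
  1 - Real.smoothTransition (vv h m z / r ^ 2 - 1)

/-- No visit at the times `l ≤ i < n`, as a function of `x = X_k`. -/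
def NV (F : Fin N → MvPolynomial (Fin N) ℂ) (w : (Fin N → ℂ) → ℝ) (l n k : ℕ)
    (x : Fin N → ℂ) : ℝ :=
  ∏ i ∈ Finset.Ico l n, (1 - w (ev (iter F (k - i)) x))

/-- No visit at the times `l ≤ i < n`, a visit at the time `n`, as a function of `x = X_n`. -/
def FV (F : Fin N → MvPolynomial (Fin N) ℂ) (w : (Fin N → ℂ) → ℝ) (l n : ℕ)
    (x : Fin N → ℂ) : ℝ :=
  NV F w l n n x * w x

/-- The weight polynomial `h` of degree `m`: it is small at `F x` if the Jacobian is small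
at `x`. -/
structure NP (F : Fin N → MvPolynomial (Fin N) ℂ) (d : ℕ) (h : MvPolynomial (Fin N) ℂ)
    (m : ℕ) : Prop where
  ne : h ≠ 0
  pos : 1 ≤ m
  hom : h.IsHomogeneous m
  le : ∃ C : ℝ, 1 ≤ C ∧ ∀ x : Fin N → ℂ, x ≠ 0 →
    nv h m (ev F x) ≤ C * nv (detP F) (N * (d - 1)) x

/-- FIRST VISIT ESTIMATE. -/
def FVB (p : ℕ) (F : Fin (p + 1) → MvPolynomial (Fin (p + 1)) ℂ) (d : ℕ)
    (h : MvPolynomial (Fin (p + 1)) ℂ) (m : ℕ) : Prop :=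
  ∃ C : ℝ, 1 ≤ C ∧ ∀ (j : ℕ) (r : ℝ), 0 < r → r ≤ 1 / C →
    ∀ σ : Form (Fin (p + 1)) p, Prob σ →
    Ex F d j (FV F (Wt h m r) 0 j) σ ≤
      (C * (j + 1) / (d : ℝ) ^ j + C / Real.log (1 / r)) * mass 0 (om (p + 1) p)

/-- ESCAPE. -/
def UE (p : ℕ) (F : Fin (p + 1) → MvPolynomial (Fin (p + 1)) ℂ) (d : ℕ)
    (h : MvPolynomial (Fin (p + 1)) ℂ) (m : ℕ) : Prop :=
  ∃ (l : ℕ) (c : ℝ), 0 < c ∧ c ≤ 1 ∧ ∀ (n : ℕ) (r : ℝ), 0 < r → r < c →
    (n : ℝ) ≤ c * Real.log (1 / r) → ∀ σ : Form (Fin (p + 1)) p, Prob σ →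
    c * mass 0 (om (p + 1) p) ≤ Ex F d n (NV F (Wt h m r) l (n + 1) n) σ

/-- The conical neighbourhood of the line of `y`. -/
def BB (y : Fin N → ℂ) (ε : ℝ) : Set (Fin N → ℂ) := {z | ∃ l : ℂ, ‖z - l • y‖ < ε * ‖z‖}

/-- The points with bad escape. -/
def Bad (p : ℕ) (F : Fin (p + 1) → MvPolynomial (Fin (p + 1)) ℂ) (d : ℕ)
    (h : MvPolynomial (Fin (p + 1)) ℂ) (m : ℕ) : Set (Fin (p + 1) → ℂ) :=
  {y | y ≠ 0 ∧ ∀ (l : ℕ) (ε : ℝ), 0 < ε → ∃ (n : ℕ) (r : ℝ), 0 < r ∧ r < ε ∧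
    (n : ℝ) ≤ ε * Real.log (1 / r) ∧ ∃ σ : Form (Fin (p + 1)) p, Prob σ ∧ InK (BB y ε) σ ∧
    Ex F d n (NV F (Wt h m r) l (n + 1) n) σ < ε * mass 0 (om (p + 1) p)}

end

end Pool.Agent.H83.EQP
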