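import Pool.Agent.H83.EQP.Defs

/-!
Targets of block P (board MP_75a732_an).
-/

namespace Pool.Agent.H83.EQP

open scoped BigOperators ComplexConjugate ContDiff ComplexOrder
open MeasureTheory Pool.Agent.H92.EQ

noncomputable section

/-! ### PA: the Markov calculus -/

/-- PA1: the product of a form of top degree with a function. -/
def T_PA1 : Prop :=
  ∀ (p : ℕ) (σ : Form (Fin (p + 1)) p) (g : (Fin (p + 1) → ℂ) → ℝ), ProjForm σ → Hom0 g →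
    (∀ z, z ≠ 0 → 0 ≤ g z) → ProjForm (fm g σ)

/-- PA2: the functional `E φ(X_i)`. -/
def T_PA2 : Prop :=
  ∀ (p d : ℕ) (F : Fin (p + 1) → MvPolynomial (Fin (p + 1)) ℂ), 1 ≤ d → IsH d F →
    ∀ (i : ℕ) (σ : Form (Fin (p + 1)) p), ProjForm σ →
    0 ≤ mass 0 σ ∧ Ex F d i (fun _ => 1) σ = mass 0 σ ∧
    (∀ φ ψ, Tf φ → Tf ψ → Ex F d i (fun z => φ z + ψ z) σ = Ex F d i φ σ + Ex F d i ψ σ) ∧
    (∀ φ (c : ℝ), Ex F d i (fun z => c * φ z) σ = c * Ex F d i φ σ) ∧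
    (∀ φ ψ, Tf φ → Tf ψ → (∀ z, z ≠ 0 → φ z ≤ ψ z) → Ex F d i φ σ ≤ Ex F d i ψ σ) ∧
    (∀ φ ψ, (∀ z, z ≠ 0 → φ z = ψ z) → Ex F d i φ σ = Ex F d i ψ σ) ∧
    (∀ (s : Finset ℕ) (φ : ℕ → (Fin (p + 1) → ℂ) → ℝ), (∀ k ∈ s, Tf (φ k)) →
      Ex F d i (fun z => ∑ k ∈ s, φ k z) σ = ∑ k ∈ s, Ex F d i (φ k) σ)

/-- PA3: stationarity, `X_j = F^i (X_(i+j))`. -/
def T_PA3 : Prop :=
  ∀ (p d : ℕ) (F : Fin (p + 1) → MvPolynomial (Fin (p + 1)) ℂ), 1 ≤ d → IsH d F →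
    ∀ (i j : ℕ) (σ : Form (Fin (p + 1)) p), ProjForm σ → ∀ φ, Tf φ →
    Ex F d (i + j) (fun x => φ (ev (iter F i) x)) σ = Ex F d j φ σ

/-- PA4: restart at the time `j` with the density `g`. -/
def T_PA4 : Prop :=
  ∀ (p d : ℕ) (F : Fin (p + 1) → MvPolynomial (Fin (p + 1)) ℂ), 1 ≤ d → IsH d F →
    ∀ (i j : ℕ) (σ : Form (Fin (p + 1)) p), ProjForm σ →
    ∀ g φ : (Fin (p + 1) → ℂ) → ℝ,
    Ex F d i φ (fm g (Sn F d j σ)) =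
      Ex F d (i + j) (fun x => g (ev (iter F i) x) * φ x) σ ∧
    Ex F d i φ (fm g σ) = Ex F d i (fun x => g (ev (iter F i) x) * φ x) σ ∧
    mass 0 (fm g (Sn F d j σ)) = Ex F d j g σ ∧
    mass 0 (fm g σ) = pair g σ (fun _ : Fin 0 => ell) ∧
    Ex F d 0 g σ = pair g σ (fun _ : Fin 0 => ell)

/-- PA5: weights. -/
def T_PA5 : Prop :=
  ∀ (p d : ℕ) (F : Fin (p + 1) → MvPolynomial (Fin (p + 1)) ℂ), 1 ≤ d → IsH d F →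
    (∀ w : (Fin (p + 1) → ℂ) → ℝ, Wg w → Tf w ∧ Wg (fun z => 1 - w z) ∧
      (∀ i, Wg (fun x => w (ev (iter F i) x))) ∧
      (∀ l n k, Wg (NV F w l n k)) ∧ (∀ l n, Wg (FV F w l n))) ∧
    (∀ φ : (Fin (p + 1) → ℂ) → ℝ, Tf φ → ∀ i, Tf (fun x => φ (ev (iter F i) x))) ∧
    (∀ v w : (Fin (p + 1) → ℂ) → ℝ, Wg v → Wg w → Wg (fun z => v z * w z)) ∧
    (∀ (h : MvPolynomial (Fin (p + 1)) ℂ) (m : ℕ) (r : ℝ), 1 ≤ m → h.IsHomogeneous m →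
      0 < r → Wg (Wt h m r))

/-- PA6: the weight `w_r`. -/
def T_PA6 : Prop :=
  ∀ (N m : ℕ) (h : MvPolynomial (Fin N) ℂ) (z : Fin N → ℂ) (r : ℝ), 1 ≤ m → 0 < r →
    vv h m z = nv h m z ^ 2 ∧ 0 ≤ Wt h m r z ∧ Wt h m r z ≤ 1 ∧
    (nv h m z ≤ r → Wt h m r z = 1) ∧ (2 * r ^ 2 ≤ vv h m z → Wt h m r z = 0)

/-- PA7: decomposition at the first visit after the time `l`. -/
def T_PA7 : Prop :=
  ∀ (p d : ℕ) (F : Fin (p + 1) → MvPolynomial (Fin (p + 1)) ℂ), 1 ≤ d → IsH d F →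
    ∀ w : (Fin (p + 1) → ℂ) → ℝ, Wg w → ∀ σ : Form (Fin (p + 1)) p, ProjForm σ →
    ∀ l n : ℕ, l ≤ n + 1 →
    ∑ j ∈ Finset.Ico l (n + 1), Ex F d j (FV F w l j) σ + Ex F d n (NV F w l (n + 1) n) σ =
      mass 0 σ

/-- PA8: shift of the time. -/
def T_PA8 : Prop :=
  ∀ (p d : ℕ) (F : Fin (p + 1) → MvPolynomial (Fin (p + 1)) ℂ), 1 ≤ d → IsH d F →
    ∀ (σ : Form (Fin (p + 1)) p), ProjForm σ → ∀ l : ℕ,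
    ProjForm (Sn F d l σ) ∧ mass 0 (Sn F d l σ) = mass 0 σ ∧
    (∀ i φ, Ex F d i φ (Sn F d l σ) = Ex F d (i + l) φ σ) ∧
    (∀ w a b k x, NV F w (a + l) (b + l) (k + l) x = NV F w a b k x) ∧
    (∀ w a b x, FV F w (a + l) (b + l) x = FV F w a b x)

/-! ### PB: norm polynomials -/

/-- PB1: the polynomials are integral over the polynomials in `Φ`. -/
def T_PB1 : Prop :=
  ∀ (N D : ℕ) (Φ : Fin N → MvPolynomial (Fin N) ℂ), 1 ≤ D → IsH D Φ →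
    (MvPolynomial.bind₁ Φ : MvPolynomial (Fin N) ℂ →ₐ[ℂ] MvPolynomial (Fin N) ℂ).toRingHom.Finite

/-- PB2: algebraic independence. -/
def T_PB2 : Prop :=
  ∀ (N D : ℕ) (Φ : Fin N → MvPolynomial (Fin N) ℂ), 1 ≤ D → IsH D Φ →
    ∀ P : MvPolynomial (Fin N) ℂ, MvPolynomial.bind₁ Φ P = 0 → P = 0

/-- PB3: norm polynomials. -/
def T_PB3 : Prop :=
  ∀ (N D a : ℕ) (Φ : Fin N → MvPolynomial (Fin N) ℂ) (h : MvPolynomial (Fin N) ℂ), 0 < N →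
    1 ≤ D → IsH D Φ → h ≠ 0 → h.IsHomogeneous a →
    ∃ (m : ℕ) (P : MvPolynomial (Fin N) ℂ), P ≠ 0 ∧ P.IsHomogeneous m ∧ (1 ≤ a → 1 ≤ m) ∧
      (∃ G, MvPolynomial.bind₁ Φ P = h * G) ∧
      ∃ C : ℝ, 1 ≤ C ∧ ∀ x : Fin N → ℂ, x ≠ 0 → nv P m (ev Φ x) ≤ C * nv h a x

/-- PB4: finite fibres. -/
def T_PB4 : Prop :=
  ∀ (N D : ℕ) (Φ : Fin N → MvPolynomial (Fin N) ℂ), 1 ≤ D → IsH D Φ →
    ∀ y : Fin N → ℂ, (ev Φ ⁻¹' {y}).Finite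

/-- PB5: weight polynomials exist. -/
def T_PB5 : Prop :=
  ∀ (p d : ℕ) (F : Fin (p + 1) → MvPolynomial (Fin (p + 1)) ℂ), 2 ≤ d → IsH d F →
    ∃ (m : ℕ) (h : MvPolynomial (Fin (p + 1)) ℂ), NP F d h m

/-! ### PC: first visits -/

/-- PC1: the logarithm is locally integrable in the plane, uniformly. -/
def T_PC1 : Prop :=
  ∃ C : ENNReal, C ≠ ⊤ ∧ ∀ ρ : ℂ,
    ∫⁻ t in Metric.closedBall (0 : ℂ) 1, ENNReal.ofReal (-Real.log ‖t - ρ‖) ≤ C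

/-- PC2: the logarithm of a homogeneous polynomial is locally integrable. -/
def T_PC2 : Prop :=
  ∀ (N m : ℕ) (h : MvPolynomial (Fin N) ℂ), h ≠ 0 → h.IsHomogeneous m →
    volume {z : Fin N → ℂ | MvPolynomial.eval z h = 0} = 0 ∧
    ∀ R : ℝ, ∫⁻ z in {z : Fin N → ℂ | ‖z‖ ≤ R},
      ENNReal.ofReal (-Real.log ‖MvPolynomial.eval z h‖) ≠ ⊤

/-- PC3: bound at the time `0`. -/
def T_PC3 : Prop :=
  ∀ (p m : ℕ) (h : MvPolynomial (Fin (p + 1)) ℂ), h ≠ 0 → 1 ≤ m → h.IsHomogeneous m →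
    ∃ C : ℝ, 0 < C ∧ ∀ ε : ℝ, 0 < ε → ε ≤ 1 →
    pair (fun z => ell z - we h m ε z) (om (p + 1) p) (fun _ : Fin 0 => ell) ≤ C

/-- PC4a: powers of the pull-back of the Fubini-Study form. -/
def T_PC4a : Prop :=
  ∀ (N a q D : ℕ) (Φ : Fin N → MvPolynomial (Fin N) ℂ) (φ : (Fin N → ℂ) → ℝ),
    a + q + 1 = N → 1 ≤ D → IsH D Φ →
    pair φ (pull Φ (om N a)) (fun _ : Fin q => fun z => (1 / (D : ℝ)) * ell (ev Φ z)) =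
      (D : ℝ) ^ a * pair φ (om N 0)
        (fun _ : Fin (a + q) => fun z => (1 / (D : ℝ)) * ell (ev Φ z)) ∧
    pair φ (om N a) (fun _ : Fin q => ell) = pair φ (om N 0) (fun _ : Fin (a + q) => ell)

/-- PC4: bound for the iterates. -/
def T_PC4 : Prop :=
  ∀ (p d m : ℕ) (F : Fin (p + 1) → MvPolynomial (Fin (p + 1)) ℂ)
    (h : MvPolynomial (Fin (p + 1)) ℂ), 2 ≤ d → IsH d F → h ≠ 0 → 1 ≤ m →
    h.IsHomogeneous m → ∃ C : ℝ, 0 < C ∧ ∀ (j : ℕ) (ε : ℝ), 0 < ε → ε ≤ 1 →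
    pair (fun z => ell z - we h m ε z) (pull (iter F j) (om (p + 1) p))
      (fun _ : Fin 0 => ell) ≤ C * ((d : ℝ) ^ j) ^ p

/-- PC5: bounds for the derivatives. -/
def T_PC5 : Prop :=
  ∀ (p d m : ℕ) (F : Fin (p + 1) → MvPolynomial (Fin (p + 1)) ℂ)
    (h : MvPolynomial (Fin (p + 1)) ℂ), 2 ≤ d → IsH d F → 1 ≤ m → h.IsHomogeneous m →
    ∃ K : ℝ, 1 ≤ K ∧ ∀ (j : ℕ) (r : ℝ), 0 < r → r ≤ 1 → ∀ x, nrm x = 1 →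
    (∀ a, ‖wd a (fun z => ((FV F (Wt h m r) 0 j z : ℝ) : ℂ)) x‖ ≤ K ^ (j + 1) / r ^ 2) ∧
    (∀ i a, ‖jac (iter F j) x i a‖ ≤ K ^ (j + 1) * nrm (ev (iter F j) x)) ∧
    (∀ i a b,
      ‖MvPolynomial.eval x (MvPolynomial.pderiv b (MvPolynomial.pderiv a (iter F j i)))‖ ≤
        K ^ (j + 1) * nrm (ev (iter F j) x))

/-- PC6: lower bound for the Jacobian of `F^j` if there is no visit before `j`. -/
def T_PC6 : Prop :=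
  ∀ (p d m : ℕ) (F : Fin (p + 1) → MvPolynomial (Fin (p + 1)) ℂ)
    (h : MvPolynomial (Fin (p + 1)) ℂ), 2 ≤ d → IsH d F → NP F d h m →
    ∃ K : ℝ, 1 ≤ K ∧ ∀ (j : ℕ) (r : ℝ), 0 < r → r ≤ 1 → ∀ x, nrm x = 1 →
    FV F (Wt h m r) 0 j x ≠ 0 →
    (r / K) ^ j * nrm (ev (iter F j) x) ^ (p + 1) ≤ ‖(jac (iter F j) x).det‖

/-- PC7: comparison of the weight with a potential. -/
def T_PC7 : Prop :=
  ∀ (N m : ℕ) (h : MvPolynomial (Fin N) ℂ), 1 ≤ m → h.IsHomogeneous m →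
    ∃ c0 : ℝ, 0 ≤ c0 ∧ ∀ r : ℝ, 0 < r → r ≤ 1 / 3 → ∀ z : Fin N → ℂ, z ≠ 0 →
    0 ≤ ell z - we h m r z + c0 ∧
    Wt h m r z ≤ (2 * m / Real.log (1 / r)) * (ell z - we h m r z + c0)

/-- PC8: averaging over Gaussian matrices. -/
def T_PC8 : Prop :=
  ∀ N : ℕ, ∃ R : ℝ, 1 ≤ R ∧ ∀ (θ : ℝ) (b : Matrix (Fin N) (Fin N) ℂ → ℝ) (B : ℝ), 0 < θ →
    Integrable (fun X : Fin N → Fin N → ℂ => gss X * b (1 + (θ : ℂ) • Matrix.of X)) →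
    (∀ A, A.det ≠ 0 → 0 ≤ b A) →
    (∀ X : Fin N → Fin N → ℂ, (∀ i j, ‖X i j‖ ≤ R) →
      (1 + (θ : ℂ) • Matrix.of X).det ≠ 0 → B ≤ b (1 + (θ : ℂ) • Matrix.of X)) →
    B / 2 ≤ ∫ X : Fin N → Fin N → ℂ, gss X * b (1 + (θ : ℂ) • Matrix.of X)

/-- PC9: the first visit estimate. -/
def T_PC9 : Prop :=
  ∀ (p d m : ℕ) (F : Fin (p + 1) → MvPolynomial (Fin (p + 1)) ℂ)
    (h : MvPolynomial (Fin (p + 1)) ℂ), 2 ≤ d → IsH d F → TGauss (p + 1) p 0 →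
    GaussMean (p + 1) p 0 → LocLip (p + 1) p 0 → NP F d h m → FVB p F d h m

/-! ### PD: renewal -/

/-- `∑_(i ≤ n) θ^i E w(X_i)`. -/
def GG {N p : ℕ} (F : Fin N → MvPolynomial (Fin N) ℂ) (d : ℕ) (θ : ℝ) (n : ℕ)
    (w : (Fin N → ℂ) → ℝ) (σ : Form (Fin N) p) : ℝ :=
  ∑ i ∈ Finset.range (n + 1), θ ^ i * Ex F d i w σ

/-- PD1: scaling. -/
def T_PD1 : Prop :=
  ∀ (p d : ℕ) (F : Fin (p + 1) → MvPolynomial (Fin (p + 1)) ℂ), 1 ≤ d → IsH d F →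
    ∀ w : (Fin (p + 1) → ℂ) → ℝ, Wg w →
    (∀ (θ T : ℝ) (n : ℕ), 1 ≤ θ → 0 ≤ T →
      (∀ τ : Form (Fin (p + 1)) p, Prob τ → GG F d θ n w τ ≤ T * mass 0 (om (p + 1) p)) →
      ∀ τ : Form (Fin (p + 1)) p, ProjForm τ → GG F d θ n w τ ≤ T * mass 0 τ) ∧
    (∀ τ : Form (Fin (p + 1)) p, ProjForm τ → 0 < mass 0 τ →
      Prob (fm (fun _ => mass 0 (om (p + 1) p) / mass 0 τ) τ) ∧
      ∀ i φ, Ex F d i φ (fm (fun _ => mass 0 (om (p + 1) p) / mass 0 τ) τ) =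
        mass 0 (om (p + 1) p) / mass 0 τ * Ex F d i φ τ) ∧
    0 < mass 0 (om (p + 1) p)

/-- PD2: decomposition at the first visit and restart. -/
def T_PD2 : Prop :=
  ∀ (p d : ℕ) (F : Fin (p + 1) → MvPolynomial (Fin (p + 1)) ℂ), 1 ≤ d → IsH d F →
    ∀ w : (Fin (p + 1) → ℂ) → ℝ, Wg w → ∀ (θ T : ℝ) (n : ℕ), 1 ≤ θ → 0 ≤ T →
    (∀ τ : Form (Fin (p + 1)) p, ProjForm τ → GG F d θ n w τ ≤ T * mass 0 τ) →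
    ∀ σ : Form (Fin (p + 1)) p, ProjForm σ →
    GG F d θ n w σ ≤ (1 + T) * ∑ j ∈ Finset.range (n + 1), θ ^ j * Ex F d j (FV F w 0 j) σ

/-- PD3: iteration. -/
def T_PD3 : Prop :=
  ∀ (p d : ℕ) (F : Fin (p + 1) → MvPolynomial (Fin (p + 1)) ℂ), 1 ≤ d → IsH d F →
    ∀ w : (Fin (p + 1) → ℂ) → ℝ, Wg w → ∀ (θ ρ A : ℝ) (n : ℕ), 1 ≤ θ → 0 ≤ ρ → ρ < 1 →
    0 ≤ A →
    (∀ T : ℝ, 0 ≤ T →
      (∀ τ : Form (Fin (p + 1)) p, Prob τ → GG F d θ n w τ ≤ T * mass 0 (om (p + 1) p)) →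
      ∀ τ : Form (Fin (p + 1)) p, Prob τ →
        GG F d θ n w τ ≤ (A + ρ * T) * mass 0 (om (p + 1) p)) →
    ∀ τ : Form (Fin (p + 1)) p, Prob τ →
      GG F d θ n w τ ≤ A / (1 - ρ) * mass 0 (om (p + 1) p)

/-- PD4: the renewal inequality. -/
def T_PD4 : Prop :=
  ∀ (p d : ℕ) (F : Fin (p + 1) → MvPolynomial (Fin (p + 1)) ℂ), 1 ≤ d → IsH d F →
    ∀ w : (Fin (p + 1) → ℂ) → ℝ, Wg w → ∀ (θ b ρ : ℝ) (l n : ℕ), 1 ≤ θ → 0 ≤ b → 0 ≤ ρ →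
    ρ < 1 → θ ^ l * b ≤ ρ →
    (∀ σ : Form (Fin (p + 1)) p, Prob σ →
      ∑ j ∈ Finset.range (n + 1), θ ^ j * Ex F d j (FV F w 0 j) (Sn F d l σ) ≤
        b * mass 0 (om (p + 1) p)) →
    ∀ σ : Form (Fin (p + 1)) p, Prob σ → ∀ i ≤ n,
      θ ^ i * Ex F d i w σ ≤ (l * θ ^ l + 1) / (1 - ρ) * mass 0 (om (p + 1) p)

/-- PD5: choice of `θ`. -/
def T_PD5 : Prop :=
  ∀ (C c : ℝ) (l d : ℕ), 1 ≤ C → 0 < c → c ≤ 1 → 2 ≤ d →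
    ∃ θ : ℝ, 1 < θ ∧ θ ^ l * (1 - c / 2) ≤ 1 - c / 4 ∧ ∃ n0 : ℕ, ∀ n ≥ n0, ∀ P : ℕ → ℝ,
    (∀ j, 0 ≤ P j) → (∀ j, P j ≤ C * (j + 1) / (d : ℝ) ^ j + C * (2 * (n : ℝ) ^ 4 / (d : ℝ) ^ n)) →
    ∑ j ∈ Finset.range (n + 1), P j ≤ 1 - c →
    ∑ j ∈ Finset.range (n + 1), θ ^ j * P j ≤ 1 - c / 2

/-- PD6: first visit estimate and escape give the block. -/
def T_PD6 : Prop :=
  ∀ (p d m : ℕ) (F : Fin (p + 1) → MvPolynomial (Fin (p + 1)) ℂ)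
    (h : MvPolynomial (Fin (p + 1)) ℂ), 2 ≤ d → IsH d F → NP F d h m → FVB p F d h m →
    UE p F d h m → PMain (p + 1) d F

/-! ### PE: escape -/

/-- PE1: conical neighbourhoods. -/
def T_PE1 : Prop :=
  ∀ (N : ℕ) (y : Fin N → ℂ),
    (∀ (ε : ℝ) (l : ℂ), l ≠ 0 → BB (l • y) ε = BB y ε ∧ ∀ z, z ∈ BB y ε → l • z ∈ BB y ε) ∧
    (∀ ε z, z ∈ BB y ε → z ≠ 0) ∧ (∀ ε, IsOpen (BB y ε)) ∧
    (∀ ε ε', ε ≤ ε' → BB y ε ⊆ BB y ε') ∧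
    (y ≠ 0 → ∀ ε, 0 < ε → y ∈ BB y ε) ∧
    (∀ y' z ε ε', 0 ≤ ε' → y' ∈ BB y ε → z ∈ BB y' ε' → z ∈ BB y (ε' + ε * (1 + ε'))) ∧
    (y ≠ 0 → ∀ U : Set (Fin N → ℂ), IsOpen U → y ∈ U → (∀ z ∈ U, ∀ l : ℂ, l ≠ 0 → l • z ∈ U) →
      ∃ ε : ℝ, 0 < ε ∧ BB y ε ⊆ U)

/-- PE2: bump functions. -/
def T_PE2 : Prop :=
  ∀ (N : ℕ) (y : Fin N → ℂ) (ε : ℝ), y ≠ 0 → 0 < ε →
    ∃ (χ : (Fin N → ℂ) → ℝ) (ε' : ℝ), 0 < ε' ∧ ε' ≤ ε ∧ Wg χ ∧ (∀ z ∈ BB y ε', χ z = 1) ∧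
      ∀ z, z ≠ 0 → z ∉ BB y ε → χ z = 0

/-- PE3: translation invariance of the push-forward of `κ |det|² dz` where `κ` is locally
constant. -/
def T_PE3 : Prop :=
  ∀ (N D : ℕ) (Φ : Fin N → MvPolynomial (Fin N) ℂ), 1 ≤ D → IsH D Φ →
    ∀ (κ f : (Fin N → ℂ) → ℂ) (a : Fin N), ContDiff ℝ ∞ κ → HasCompactSupport κ →
    ContDiff ℝ ∞ f → HasCompactSupport f →
    (∀ z b, f (ev Φ z) ≠ 0 → wd b κ z = 0 ∧ wdb b κ z = 0) →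
    ∫ z, κ z * ((‖(jac Φ z).det‖ ^ 2 : ℝ) : ℂ) * wd a f (ev Φ z) = 0 ∧
    ∫ z, κ z * ((‖(jac Φ z).det‖ ^ 2 : ℝ) : ℂ) * wdb a f (ev Φ z) = 0

/-- PE4: it is a multiple of Lebesgue measure. -/
def T_PE4 : Prop :=
  ∀ (N D : ℕ) (Φ : Fin N → MvPolynomial (Fin N) ℂ), 1 ≤ D → IsH D Φ →
    ∀ (κ : (Fin N → ℂ) → ℝ) (y0 : Fin N → ℂ) (ρ : ℝ), 0 < ρ → ContDiff ℝ ∞ κ →
    HasCompactSupport κ → (∀ z, 0 ≤ κ z) →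
    (∀ z, ev Φ z ∈ Metric.ball y0 ρ → fderiv ℝ κ z = 0) →
    ∃ c : ℝ, 0 ≤ c ∧ ∀ g : (Fin N → ℂ) → ℝ, Continuous g →
      tsupport g ⊆ Metric.ball y0 (ρ / 2) →
      ∫ z, κ z * (‖(jac Φ z).det‖ ^ 2 * g (ev Φ z)) = c * ∫ w, g w

/-- PE5: the local degree is positive. -/
def T_PE5 : Prop :=
  ∀ (N D : ℕ) (Φ : Fin N → MvPolynomial (Fin N) ℂ), 1 ≤ D → IsH D Φ →
    ∀ (x0 : Fin N → ℂ) (ρ0 : ℝ), 0 < ρ0 →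
    ∃ (κ : (Fin N → ℂ) → ℝ) (ρ c : ℝ), 0 < ρ ∧ 0 < c ∧ Continuous κ ∧
      (∀ z, 0 ≤ κ z ∧ κ z ≤ 1) ∧ (∀ z, κ z ≠ 0 → ‖z - x0‖ < ρ0) ∧
      ∀ g : (Fin N → ℂ) → ℝ, Continuous g → tsupport g ⊆ Metric.ball (ev Φ x0) ρ →
      ∫ z, κ z * (‖(jac Φ z).det‖ ^ 2 * g (ev Φ z)) = c * ∫ w, g w

/-- PE6: a small ball of `ℂ^N` sees the mass of a measure concentrated near its centre. -/
def T_PE6 : Prop :=
  ∀ (p : ℕ) (y0 : Fin (p + 1) → ℂ) (ρ : ℝ), y0 ≠ 0 → 0 < ρ →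
    ∃ (g0 : (Fin (p + 1) → ℂ) → ℝ) (ε c : ℝ), 0 < ε ∧ 0 < c ∧ Continuous g0 ∧
      (∀ z, 0 ≤ g0 z ∧ g0 z ≤ 1) ∧ HasCompactSupport g0 ∧ tsupport g0 ⊆ Metric.ball y0 ρ ∧
      (0 : Fin (p + 1) → ℂ) ∉ tsupport g0 ∧
      ∀ σ : Form (Fin (p + 1)) p, ProjForm σ → InK (BB y0 ε) σ →
        c * mass 0 σ ≤ ∫ z, g0 z * Q σ (fun _ : Fin 0 => ell) z

/-- PE7a: the density of the pull-back. -/
def T_PE7a : Prop :=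
  ∀ (p D : ℕ) (Φ : Fin (p + 1) → MvPolynomial (Fin (p + 1)) ℂ) (σ : Form (Fin (p + 1)) p),
    1 ≤ D → IsH D Φ → ProjForm σ → ∀ z, z ≠ 0 →
    Q (pull Φ σ) (fun _ : Fin 0 => ell) z =
      ((D : ℝ) ^ 2)⁻¹ * ‖(jac Φ z).det‖ ^ 2 * Q σ (fun _ : Fin 0 => ell) (ev Φ z)

/-- PE7: from a neighbourhood of `F x` the walk goes near `x` with positive probability. -/
def T_PE7 : Prop :=
  ∀ (p d : ℕ) (F : Fin (p + 1) → MvPolynomial (Fin (p + 1)) ℂ), 2 ≤ d → IsH d F →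
    ∀ (x : Fin (p + 1) → ℂ) (χ : (Fin (p + 1) → ℂ) → ℝ), x ≠ 0 → Wg χ →
    (∃ ε : ℝ, 0 < ε ∧ ∀ z ∈ BB x ε, χ z = 1) →
    ∃ ε c : ℝ, 0 < ε ∧ 0 < c ∧ c ≤ 1 ∧ ∀ σ : Form (Fin (p + 1)) p, ProjForm σ →
      InK (BB (ev F x) ε) σ → c * mass 0 σ ≤ Ex F d 1 χ σ

/-- PE8: backward invariance of the bad set. -/
def T_PE8 : Prop :=
  ∀ (p d m : ℕ) (F : Fin (p + 1) → MvPolynomial (Fin (p + 1)) ℂ)
    (h : MvPolynomial (Fin (p + 1)) ℂ), 2 ≤ d → IsH d F → 1 ≤ m → h.IsHomogeneous m →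
    ∀ z, z ≠ 0 → ev F z ∈ Bad p F d h m → z ∈ Bad p F d h m

/-- PE9: the bad set is a closed cone. -/
def T_PE9 : Prop :=
  ∀ (p d m : ℕ) (F : Fin (p + 1) → MvPolynomial (Fin (p + 1)) ℂ)
    (h : MvPolynomial (Fin (p + 1)) ℂ),
    IsClosed (Bad p F d h m ∪ {0}) ∧ (∀ z ∈ Bad p F d h m, z ≠ 0) ∧
    ∀ z ∈ Bad p F d h m, ∀ l : ℂ, l ≠ 0 → l • z ∈ Bad p F d h m

/-- PE10: the bad set is contained in a hypersurface. -/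
def T_PE10 : Prop :=
  ∀ (p d m : ℕ) (F : Fin (p + 1) → MvPolynomial (Fin (p + 1)) ℂ)
    (h : MvPolynomial (Fin (p + 1)) ℂ), 2 ≤ d → IsH d F → NP F d h m → FVB p F d h m →
    ∃ P : MvPolynomial (Fin (p + 1)) ℂ, P ≠ 0 ∧
      ∀ y ∈ Bad p F d h m, MvPolynomial.eval y P = 0

/-- PE11: compactness. -/
def T_PE11 : Prop :=
  ∀ (p d m : ℕ) (F : Fin (p + 1) → MvPolynomial (Fin (p + 1)) ℂ)
    (h : MvPolynomial (Fin (p + 1)) ℂ), 2 ≤ d → IsH d F → 1 ≤ m → h.IsHomogeneous m →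
    Bad p F d h m = ∅ → UE p F d h m

/-- PE12: the block, topological hypothesis. -/
def T_PE12 : Prop :=
  ∀ (N d : ℕ) (F : Fin N → MvPolynomial (Fin N) ℂ), 2 ≤ d → IsH d F →
    TGauss N (N - 1) 0 → GaussMean N (N - 1) 0 → LocLip N (N - 1) 0 → NoTotInv F →
    PMain N d F

/-! ### PF: Zariski closures -/

/-- PF1: an integral equation which vanishes with the polynomial. -/
def T_PF1 : Prop :=
  ∀ (N D : ℕ) (Φ : Fin N → MvPolynomial (Fin N) ℂ), 1 ≤ D → IsH D Φ →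
    ∀ G : MvPolynomial (Fin N) ℂ, ∃ (s : ℕ) (a : Fin s → MvPolynomial (Fin N) ℂ), 1 ≤ s ∧
    G ^ s + ∑ i : Fin s, MvPolynomial.bind₁ Φ (a i) * G ^ (i : ℕ) = 0 ∧
    ∀ y : Fin N → ℂ, (∀ z, ev Φ z = y → MvPolynomial.eval z G = 0) →
      ∀ i, MvPolynomial.eval y (a i) = 0

/-- PF2: surjectivity. -/
def T_PF2 : Prop :=
  ∀ (N D : ℕ) (Φ : Fin N → MvPolynomial (Fin N) ℂ), 1 ≤ D → IsH D Φ →
    Function.Surjective (ev Φ : (Fin N → ℂ) → Fin N → ℂ)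

/-- PF3: the Zariski closure of a backward invariant set is totally invariant. -/
def T_PF3 : Prop :=
  ∀ (N d : ℕ) (F : Fin N → MvPolynomial (Fin N) ℂ) (K : Set (Fin N → ℂ)), 1 ≤ d → IsH d F →
    (∀ z ∈ K, z ≠ 0) → (∀ z ∈ K, ∀ l : ℂ, l ≠ 0 → l • z ∈ K) →
    (∀ z, z ≠ 0 → ev F z ∈ K → z ∈ K) → ∀ z : Fin N → ℂ, z ≠ 0 →
    ((∀ h : MvPolynomial (Fin N) ℂ, (∃ m, h.IsHomogeneous m) →
        (∀ y ∈ K, MvPolynomial.eval y h = 0) → MvPolynomial.eval (ev F z) h = 0) ↔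
      ∀ h : MvPolynomial (Fin N) ℂ, (∃ m, h.IsHomogeneous m) →
        (∀ y ∈ K, MvPolynomial.eval y h = 0) → MvPolynomial.eval z h = 0)

/-- PF4: the algebraic hypothesis implies the topological one. -/
def T_PF4 : Prop :=
  ∀ (N d : ℕ) (F : Fin N → MvPolynomial (Fin N) ℂ), 1 ≤ d → IsH d F → NoTotInvAlg F →
    NoTotInv F

end

end Pool.Agent.H83.EQP
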